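import Pool.Agent.TH179.PerpH

/-!
# Orders with a perpendicular: orders of height one of any cardinality, and two criteria

The definitions are in `Pool/Agent/TH179/Perp.lean`, the proof of the case of height one in
`Pool/Agent/TH179/PerpH.lean`.
-/

open Pool.Agent.TH179.Perp

namespace Pool.Agent.Results.MP_04ca4f_co.SomePerpendiculars

universe u

theorem result :
    -- (1) orders of height at most one, any cardinality
    (∀ (X : Type u) (P : X → X → Prop), IsOrd P → (¬ ∃ A, IsAutonomous P A) →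
      (∀ x y z, P x y → P y z → x = y ∨ y = z) →
      ∃ Q, IsOrd Q ∧ (∀ f, Pres P f → Pres Q f → IsConst f ∨ IsEmb P f) ∧
        ((∀ f, IsEmb P f → f = id) → Perpendicular P Q)) ∧
    -- (2) any cardinality, any dimension and height: a criterion with a subset `S`
    (∀ (X : Type u) (P : X → X → Prop) (S : Set X), IsOrd P →
      (∀ x, ∃ y, (x ∈ S ↔ y ∉ S) ∧ Incomp P x y) →
      (∀ x y, x ≠ y → (x ∈ S ↔ y ∈ S) → ∃ z z', (z ∈ S ↔ x ∉ S) ∧ (z' ∈ S ↔ x ∉ S) ∧
        Incomp P x z ∧ Incomp P x z' ∧ ¬ SameRel P z z' y) →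
      (∀ f, Function.Injective f → Pres P f → (∀ x, x ∈ S ↔ f x ∈ S) → f = id) →
      ∃ Q, IsOrd Q ∧ Perpendicular P Q) ∧
    -- (3) finite orders of any dimension: a criterion with two linear extensions
    (∀ (X : Type u) [Finite X] (P L₁ L₂ : X → X → Prop), IsOrd P → IsLin L₁ → IsLin L₂ →
      (∀ x y, P x y → L₁ x y ∧ L₂ x y) →
      (∀ x y, Consecutive L₁ x y → P x y ∨ L₂ y x) →
      (∀ x y, Consecutive L₂ x y → P x y ∨ L₁ y x) →
      (∀ A : Set X, (∃ a ∈ A, ∃ b ∈ A, a ≠ b) → IsInterval L₁ A → IsInterval L₂ A →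
        A = Set.univ) →
      ∃ Q, IsOrd Q ∧ Perpendicular P Q) := by
  refine ⟨?_, ?_, ?_⟩
  · intro X P hP hA hh
    obtain ⟨Q, hQ, hf⟩ := height_le_one_all hP hA hh
    refine ⟨Q, hQ, hf, fun hr f h1 h2 => ?_⟩
    rcases hf f h1 h2 with h | h
    · exact Or.inr h
    · exact Or.inl (hr f h)
  · intro X P S hP hi hT hr
    refine ⟨Bip P S, bip_isOrd P S, fun f hf hg => ?_⟩
    rcases bip_criterion hP hi hT hf hg with h | ⟨h, h'⟩
    · exact Or.inr h
    · exact Or.inl (hr f h hf h')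
  · intro X _ P L₁ L₂ hP h1 h2 he c1 c2 hs
    exact ⟨_, inter_isOrd h1 h2,
      criterion h1 h2 (fun x y h => (he x y h).1) (fun x y h => (he x y h).2) c1 c2 hs⟩

end Pool.Agent.Results.MP_04ca4f_co.SomePerpendiculars
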